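import Pool.Agent.helper65.GD.SpecE

set_option autoImplicit false

namespace Pool.Agent.GD

open Finset Metric Filter Topology

/-- the partial sums `s_m` -/
noncomputable def RGA_s (μ F : ℕ → ℂ) (m : ℕ) : ℂ := ∑ r ∈ range m, μ (m - r) * F r

/-- the polynomials `g` -/
noncomputable def RGA_g (y : ℂ) (F : ℕ → ℂ) (m : ℕ) : ℂ := ∑ r ∈ range m, y ^ (m - r) * F r

theorem RGA_gsucc (y : ℂ) (F : ℕ → ℂ) (m : ℕ) : RGA_g y F (m + 1) = y * (RGA_g y F m + F m) := by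
  unfold RGA_g
  rw [sum_range_succ, mul_add, mul_sum]
  have h1 : ∀ r ∈ range m, y ^ (m + 1 - r) * F r = y * (y ^ (m - r) * F r) := by
    intro r hr
    rw [mem_range] at hr
    rw [show m + 1 - r = (m - r) + 1 by omega, pow_succ]
    ring
  rw [sum_congr rfl h1, show m + 1 - m = 1 by omega, pow_one]

theorem RGA_sg {N : ℕ} (w : Fin N → ℝ) (x : Fin N → ℂ) (F : ℕ → ℂ) (m : ℕ) :
    ∑ l, (w l : ℂ) * RGA_g (x l) F m = RGA_s (mom w x) F m := by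
  unfold RGA_g RGA_s mom
  simp only [mul_sum, sum_mul]
  rw [sum_comm]
  refine sum_congr rfl fun r _ => sum_congr rfl fun l _ => ?_
  ring

theorem RGA_cv (Q F μ : ℕ → ℂ) (κ : ℂ) (h0 : Q 0 = 1) (hQ : ∀ m, 1 ≤ m → Q m = 2 * κ * μ m) (m : ℕ) :
    cv Q F m = F m + 2 * κ * RGA_s μ F m := by
  unfold cv RGA_s
  rw [sum_range_succ, show m - m = 0 by omega, h0, one_mul, add_comm, mul_sum]
  refine congrArg (fun t => F m + t) (sum_congr rfl fun r hr => ?_)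
  rw [mem_range] at hr
  rw [hQ (m - r) (by omega)]
  ring

theorem RGA_sq (a b : ℂ) : ‖a + b‖ ^ 2 = ‖a‖ ^ 2 + ‖b‖ ^ 2 + 2 * (a * (starRingEnd ℂ) b).re := by
  rw [← Complex.normSq_eq_norm_sq, ← Complex.normSq_eq_norm_sq, ← Complex.normSq_eq_norm_sq,
    Complex.normSq_add]

theorem RGA_W {N : ℕ} (w : Fin N → ℝ) (x : Fin N → ℂ) (hA : Atomic N w x) (F : ℕ → ℂ) (n : ℕ) :
    ∑ l, w l * ‖RGA_g (x l) F n‖ ^ 2 =
      ∑ m ∈ range n, (‖F m‖ ^ 2 + 2 * (RGA_s (mom w x) F m * (starRingEnd ℂ) (F m)).re) := by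
  induction n with
  | zero => simp [RGA_g]
  | succ n ih =>
    rw [sum_range_succ, ← ih]
    have h1 : ∀ l, w l * ‖RGA_g (x l) F (n + 1)‖ ^ 2 =
        w l * ‖RGA_g (x l) F n‖ ^ 2 + w l * ‖F n‖ ^ 2 +
          2 * (((w l : ℂ) * RGA_g (x l) F n) * (starRingEnd ℂ) (F n)).re := by
      intro l
      rw [RGA_gsucc, norm_mul, hA.2.2 l, one_mul, RGA_sq, mul_assoc, Complex.re_ofReal_mul]
      ring
    rw [sum_congr rfl fun l _ => h1 l, sum_add_distrib, sum_add_distrib, ← sum_mul, hA.2.1, one_mul,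
      ← mul_sum, ← Complex.re_sum, ← sum_mul, RGA_sg, add_assoc]

theorem RGA_CS {N : ℕ} (w : Fin N → ℝ) (x : Fin N → ℂ) (hA : Atomic N w x) (F : ℕ → ℂ) (n : ℕ) :
    ‖RGA_s (mom w x) F n‖ ^ 2 ≤ ∑ l, w l * ‖RGA_g (x l) F n‖ ^ 2 := by
  rw [← RGA_sg]
  have h1 : ‖∑ l, (w l : ℂ) * RGA_g (x l) F n‖ ≤ ∑ l, w l * ‖RGA_g (x l) F n‖ := by
    refine (norm_sum_le _ _).trans (le_of_eq (sum_congr rfl fun l _ => ?_))
    rw [norm_mul, Complex.norm_real, Real.norm_eq_abs, abs_of_nonneg (hA.1 l)]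
  have h2 : (∑ l, w l * ‖RGA_g (x l) F n‖) ^ 2 ≤ (∑ l, w l) * ∑ l, w l * ‖RGA_g (x l) F n‖ ^ 2 := by
    refine Finset.sum_sq_le_sum_mul_sum_of_sq_eq_mul univ (fun l _ => hA.1 l)
      (fun l _ => mul_nonneg (hA.1 l) (sq_nonneg _)) fun l _ => ?_
    ring
  rw [hA.2.1, one_mul] at h2
  exact (pow_le_pow_left₀ (norm_nonneg _) h1 2).trans h2

theorem RGA : RGA_stmt := by
  intro N w x κ Q F n hA hκ h0 hQ
  have hcv := RGA_cv Q F (mom w x) κ h0 hQ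
  have h1 : cv Q F n - F n = 2 * κ * RGA_s (mom w x) F n := by
    rw [hcv n]
    ring
  have h2 : ‖cv Q F n - F n‖ ^ 2 = 4 * (‖κ‖ ^ 2 * ‖RGA_s (mom w x) F n‖ ^ 2) := by
    rw [h1, norm_mul, norm_mul, Complex.norm_ofNat]
    ring
  rw [h2]
  have h3 : ‖κ‖ ^ 2 * ‖RGA_s (mom w x) F n‖ ^ 2 ≤ ‖κ‖ ^ 2 *
      ∑ m ∈ range n, (‖F m‖ ^ 2 + 2 * (RGA_s (mom w x) F m * (starRingEnd ℂ) (F m)).re) := by
    refine mul_le_mul_of_nonneg_left ?_ (sq_nonneg _)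
    rw [← RGA_W w x hA F n]
    exact RGA_CS w x hA F n
  have h4 : ‖κ‖ ^ 2 *
      ∑ m ∈ range n, (‖F m‖ ^ 2 + 2 * (RGA_s (mom w x) F m * (starRingEnd ℂ) (F m)).re) ≤
      ∑ m ∈ range n, ((starRingEnd ℂ) κ * (cv Q F m * (starRingEnd ℂ) (F m))).re := by
    rw [mul_sum]
    refine sum_le_sum fun m _ => ?_
    have h5 : (starRingEnd ℂ) κ * (cv Q F m * (starRingEnd ℂ) (F m)) =
        (((‖F m‖ ^ 2 : ℝ) : ℂ) * (starRingEnd ℂ) κ) +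
          ((2 * ‖κ‖ ^ 2 : ℝ) : ℂ) * (RGA_s (mom w x) F m * (starRingEnd ℂ) (F m)) := by
      have h6 : F m * (starRingEnd ℂ) (F m) = ((‖F m‖ ^ 2 : ℝ) : ℂ) := by
        rw [Complex.mul_conj, Complex.normSq_eq_norm_sq]
      have h7 : κ * (starRingEnd ℂ) κ = ((‖κ‖ ^ 2 : ℝ) : ℂ) := by
        rw [Complex.mul_conj, Complex.normSq_eq_norm_sq]
      rw [Complex.ofReal_mul, ← h6, ← h7, hcv m]
      push_cast
      ring
    rw [h5, Complex.add_re, Complex.re_ofReal_mul, Complex.re_ofReal_mul, Complex.conj_re]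
    have h8 : ‖κ‖ ^ 2 * ‖F m‖ ^ 2 ≤ ‖F m‖ ^ 2 * κ.re := by
      rw [mul_comm]
      exact mul_le_mul_of_nonneg_left hκ (sq_nonneg _)
    linarith
  linarith

end Pool.Agent.GD
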